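import Mathlib
import Pool.Agent.R488.Th.Final
import Pool.Agent.R488.Th.A
import Pool.Agent.R488.Th.B
import Pool.Agent.R488.Th.C
import Pool.Agent.R488.Th.V
import Pool.Agent.R488.Th.W
import Pool.Agent.R488.Th.S
import Pool.Agent.R488.Tw.C
import Pool.Agent.R488.Tw.D
import Pool.Agent.R488.Tw.J
import Pool.Agent.R488.Tw.S
import Pool.Agent.R488.Tw.QF

/-!
# `∑_{k<p} C(-1/4,k)^2 4^(-k)` modulo `p^2`, `p = 1` modulo `3`
-/

set_option autoImplicit false

namespace Pool.Agent.Results.MP_5b0587_nt.ThirdSum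

open Finset

/-- the generalised binomial coefficient `a (a-1) ⋯ (a-k+1) / k!` -/
def gbinom (a : ℚ) (k : ℕ) : ℚ := (∏ i ∈ range k, (a - i)) / k.factorial

/-- `S_3(p) = ∑_{k=0}^{p-1} C(-1/4,k)^2 4^(-k)` -/
def S₃ (p : ℕ) : ℚ := ∑ k ∈ range p, gbinom (-(1 / 4)) k ^ 2 * (1 / 4) ^ k

/-- `x ≡ y (mod p^2)` for rational numbers `x`, `y` with denominators prime to `p`:
the numerator of `x - y` (in lowest terms) is divisible by `p^2`. -/
def CongrSq (p : ℕ) (x y : ℚ) : Prop :=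
  ¬ p ∣ x.den ∧ ¬ p ∣ y.den ∧ (p : ℤ) ^ 2 ∣ (x - y).num

open Pool.Agent.R439.PL Pool.Agent.R488.Cub Pool.Agent.R488

theorem num_of_I {p : ℕ} [hp : Fact p.Prime] {x : ℚ} (h : I p 2 x) : (p : ℤ) ^ 2 ∣ x.num := by
  obtain ⟨y, ⟨a, b, hb, rfl⟩, h⟩ := h
  have hb0 : (b : ℚ) ≠ 0 := by
    intro h; apply hb; have : b = 0 := by exact_mod_cast h
    rw [this]; exact dvd_zero _
  have hd0 : (x.den : ℚ) ≠ 0 := by exact_mod_cast x.den_nz
  have h0 : x * b = (p : ℚ) ^ 2 * a := by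
    rw [h]; field_simp
  have h1 : (x.num : ℚ) * b = (p : ℚ) ^ 2 * (a * x.den) := by
    have e : (x.num : ℚ) = x * x.den := (Rat.mul_den_eq_num x).symm
    rw [e]
    linear_combination (x.den : ℚ) * h0
  have h2 : x.num * b = (p : ℤ) ^ 2 * (a * x.den) := by exact_mod_cast h1
  have hc : IsCoprime ((p : ℤ) ^ 2) b :=
    IsCoprime.pow_left ((Prime.coprime_iff_not_dvd (pz (p := p))).2 hb)
  exact hc.dvd_of_dvd_mul_right ⟨_, h2⟩

theorem congr_of_EQ {p : ℕ} [Fact p.Prime] {x y : ℚ} (h : EQ p 2 x y) : CongrSq p x y := by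
  refine ⟨?_, ?_, num_of_I h.2.2⟩
  · have := den_of_I (p := p) (k := 0) (I_zero_iff.2 h.1)
    rwa [pow_zero, div_one] at this
  · have := den_of_I (p := p) (k := 0) (I_zero_iff.2 h.2.1)
    rwa [pow_zero, div_one] at this

theorem S_eq (p : ℕ) : S₃ p = Th.HT p 0 := by
  rw [S₃, Th.HT]
  refine sum_congr rfl fun k _ => ?_
  rw [Th.ht, mul_comm]
  congr 1
  have h : ∀ k : ℕ, gbinom (-(1 / 4)) k = (-1) ^ k * ∏ i ∈ range k, ((1 / 4 + i : ℚ) / (1 + i)) := by
    intro k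
    have hf : (k.factorial : ℚ) = ∏ i ∈ range k, (1 + i : ℚ) := by
      induction k with
      | zero => simp
      | succ k ih => rw [Nat.factorial_succ, prod_range_succ, ← ih]; push_cast; ring
    rw [gbinom, hf, prod_div_distrib, ← mul_div_assoc]
    congr 1
    have : (-1 : ℚ) ^ k = ∏ i ∈ range k, (-1 : ℚ) := by rw [prod_const, card_range]
    rw [this, ← prod_mul_distrib]
    exact prod_congr rfl fun i _ => by ring
  have h1 : ((-1 : ℚ) ^ k) ^ 2 = 1 := by rw [← pow_mul, mul_comm, pow_mul]; norm_num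
  rw [h k, mul_pow, h1, one_mul, ← prod_pow]
  refine prod_congr rfl fun i _ => ?_
  rw [mul_zero, mul_zero, sub_zero, add_zero, add_zero, div_eq_mul_inv, mul_inv]
  ring

theorem sgn (A : ℤ) (hA : A % 2 = 1) : ((-1 : ℚ) ^ ((A - 1) / 2) = if A % 4 = 1 then 1 else -1) := by
  split_ifs with h
  · obtain ⟨c, hc⟩ : ∃ c, A = 4 * c + 1 := ⟨A / 4, by omega⟩
    have : (A - 1) / 2 = 2 * c := by omega
    rw [this, zpow_mul]; norm_num
  · obtain ⟨c, hc⟩ : ∃ c, A = 4 * c + 3 := ⟨A / 4, by omega⟩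
    have : (A - 1) / 2 = 2 * c + 1 := by omega
    rw [this, zpow_add₀ (by norm_num), zpow_mul]; norm_num

/-- For every prime `p = 1 mod 3` there are integers `A`, `B` with `p = A^2 + 3 B^2`, and for all
such `A`, `B` the stated value of `S_3(p)` modulo `p^2` holds. -/
theorem result (p : ℕ) (hp : p.Prime) (h : p % 3 = 1) :
    (∃ A B : ℤ, (p : ℤ) = A ^ 2 + 3 * B ^ 2) ∧
    ∀ A B : ℤ, (p : ℤ) = A ^ 2 + 3 * B ^ 2 →
      (p % 12 = 1 → Odd A ∧
        CongrSq p (S₃ p) ((-1) ^ ((A - 1) / 2) * (2 * A - p / (2 * A)))) ∧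
      (p % 12 = 7 → Odd B ∧
        CongrSq p (S₃ p) ((-1) ^ ((B - 1) / 2) * (3 * B - p / (4 * B)))) := by
  haveI : Fact p.Prime := ⟨hp⟩
  have hodd : p % 2 = 1 := by
    rcases hp.eq_two_or_odd with h2 | h2
    · omega
    · exact h2
  obtain ⟨j, hpj⟩ : ∃ j, p = 6 * j + 1 := ⟨p / 6, by omega⟩
  constructor
  · obtain ⟨A, B, t, h1, -⟩ := Tw.twJ p j hpj
    exact ⟨A, B, h1⟩
  · intro A B hAB
    rw [S_eq]
    constructor
    · intro h12
      obtain ⟨M, hM⟩ : ∃ M, p = 12 * M + 1 := ⟨p / 12, by omega⟩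
      obtain ⟨A', B', e, hAB', he, hE⟩ := Th.final1 Th.thA Th.thB Th.thS Tw.twJ Tw.twF hM
      have hBB : B = B' ∨ B = -B' := Tw.twQ p hp A B A' B' hAB hAB'
      have hB2 : B ^ 2 = B' ^ 2 := by rcases hBB with h | h <;> rw [h] <;> ring
      have hA2 : A ^ 2 = A' ^ 2 := by linarith
      have hA' : A' % 2 = 1 := by rcases he with ⟨h, -⟩ | ⟨h, -⟩ <;> omega
      have hes : (e : ℚ) = if A' % 4 = 1 then 1 else -1 := by
        rcases he with ⟨h, h'⟩ | ⟨h, h'⟩
        · rw [if_pos h, h']; norm_num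
        · rw [if_neg (by omega), h']; norm_num
      rw [hes, ← sgn A' hA'] at hE
      rcases sq_eq_sq_iff_eq_or_eq_neg.1 hA2 with hA | hA
      · refine ⟨by rw [Int.odd_iff]; omega, ?_⟩
        rw [hA]; exact congr_of_EQ hE
      · refine ⟨by rw [Int.odd_iff]; omega, ?_⟩
        have hA1 : A % 2 = 1 := by omega
        have e1 : ((-1 : ℚ) ^ ((A - 1) / 2) * (2 * A - p / (2 * A))) =
            (-1 : ℚ) ^ ((A' - 1) / 2) * (2 * A' - p / (2 * A')) := by
          rw [sgn A hA1, sgn A' hA']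
          have hq : (A : ℚ) = -A' := by rw [hA]; push_cast; ring
          rw [hq]
          rcases (show A % 4 = 1 ∨ A % 4 = 3 by omega) with h4 | h4
          · rw [if_pos h4, if_neg (by omega)]
            rw [mul_neg, div_neg]; ring
          · rw [if_neg (by omega), if_pos (by omega)]
            rw [mul_neg, div_neg]; ring
        rw [e1]; exact congr_of_EQ hE
    · intro h12
      obtain ⟨M, hM⟩ : ∃ M, p = 12 * M + 7 := ⟨p / 12, by omega⟩
      have hB1 : B % 2 = 1 := by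
        rcases Int.emod_two_eq_zero_or_one B with hB | hB
        · exfalso
          obtain ⟨c, hc⟩ : ∃ c, B = 2 * c := ⟨B / 2, by omega⟩
          rcases Int.emod_two_eq_zero_or_one A with hA | hA
          · obtain ⟨d, hd⟩ : ∃ d, A = 2 * d := ⟨A / 2, by omega⟩
            have : (p : ℤ) = 4 * (d ^ 2 + 3 * c ^ 2) := by rw [hAB, hc, hd]; ring
            omega
          · obtain ⟨d, hd⟩ : ∃ d, A = 2 * d + 1 := ⟨A / 2, by omega⟩
            have : (p : ℤ) = 4 * (d ^ 2 + d + 3 * c ^ 2) + 1 := by rw [hAB, hc, hd]; ring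
            omega
        · exact hB
      refine ⟨by rw [Int.odd_iff]; omega, ?_⟩
      rcases (show B % 4 = 1 ∨ B % 4 = 3 by omega) with h4 | h4
      · rw [sgn B hB1, if_pos h4, one_mul]
        exact congr_of_EQ (Th.final7 Th.thA Th.thC Th.thV Th.thW Tw.twJ Tw.twS Tw.twF Tw.twQ Tw.twC
          Tw.twD hM hAB h4)
      · have hAB2 : (p : ℤ) = A ^ 2 + 3 * (-B) ^ 2 := by rw [hAB]; ring
        have := congr_of_EQ (Th.final7 Th.thA Th.thC Th.thV Th.thW Tw.twJ Tw.twS Tw.twF Tw.twQ Tw.twC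
          Tw.twD hM hAB2 (by omega))
        rw [sgn B hB1, if_neg (by omega)]
        have e1 : 3 * ((-B : ℤ) : ℚ) - p / (4 * ((-B : ℤ) : ℚ)) = -1 * (3 * (B : ℚ) - p / (4 * B)) := by
          push_cast
          rw [mul_neg, mul_neg, div_neg]; ring
        rwa [e1] at this

end Pool.Agent.Results.MP_5b0587_nt.ThirdSum
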